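import Pool.Agent.H250R3.Tor.Iso2
import Pool.Agent.H250R3.Tor.Data

set_option autoImplicit false

/-!
The bigraded Tor-algebra of a simple polytope does not determine its Buchstaber invariant nor its
real Buchstaber invariant: there are two simple 4-polytopes with 8 facets whose Tor-algebras over
every field are isomorphic as bigraded algebras, with invariants 4 and 3.
-/

namespace Pool.Agent.Results.MP_1dea36_gt.BettiBuchstaber

open Pool.Agent.H250R3.Bet
open Pool.Agent.H250R3.Tor (mkPoly mkPoly_K certP certQ tor_iso okTP okTQ KF DP DQ toric_mem MP MQ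
  FP FQ invP invQ om real_le down_KF F15 not_four srchQ buch_eq)

universe u

theorem result : ∃ P Q : SimplePolytope 4 8,
    (∀ (k : Type u) [Field k],
      (∃ φ : TorAlg k P.K ≃ₐ[k] TorAlg k Q.K,
        ∀ i j, (TorBi k P.K i j).map φ.toLinearMap = TorBi k Q.K i j) ∧
      ∀ i j, betti k P.K i j = betti k Q.K i j) ∧
    buchstaber P.K = 4 ∧ buchstaber Q.K = 3 ∧
    realBuchstaber P.K = 4 ∧ realBuchstaber Q.K = 3 := by
  refine ⟨mkPoly certP, mkPoly certQ, ?_, ?_⟩
  · intro k _
    rw [mkPoly_K, mkPoly_K]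
    obtain ⟨φ, hφ⟩ := tor_iso k okTP okTQ
    refine ⟨⟨φ, hφ⟩, ?_⟩
    intro i j
    have h1 : Module.finrank k ((TorBi k (KF DP.F) i j).map φ.toLinearMap) =
        Module.finrank k (TorBi k (KF DP.F) i j) :=
      LinearEquiv.finrank_map_eq φ.toLinearEquiv _
    rw [hφ i j] at h1
    exact h1.symm
  · rw [mkPoly_K, mkPoly_K]
    have hP : 4 ∈ toricRanks (KF FP) := by
      refine toric_mem MP (show (∅ : Finset (Fin 8)) ∈ KF FP from
        ⟨15, by decide +kernel, Finset.empty_subset _⟩) ?_
      rintro σ ⟨f, hf, hσ⟩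
      obtain ⟨N, _, h1, h2⟩ := invP f hf
      exact ⟨N, fun j i hi => h1 j i (hσ hi), h2⟩
    have hQ : 3 ∈ toricRanks (KF FQ) := by
      refine toric_mem MQ (show (∅ : Finset (Fin 8)) ∈ KF FQ from
        ⟨15, by decide +kernel, Finset.empty_subset _⟩) ?_
      rintro σ ⟨f, hf, hσ⟩
      obtain ⟨N, _, h1, h2⟩ := invQ f hf
      exact ⟨N, fun j i hi => h1 j i (hσ hi), h2⟩
    have hc : (om 15).card = 4 := by decide +kernel
    have uP : ∀ r ∈ realRanks (KF FP), r ≤ 4 := by
      intro r hr
      have := real_le hr (down_KF FP) (σ := om 15) ⟨15, by decide +kernel, subset_rfl⟩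
      rw [hc] at this
      exact this
    have uQ : ∀ r ∈ realRanks (KF FQ), r ≤ 3 := by
      intro r hr
      have h1 := real_le hr (down_KF FQ) F15
      rw [hc] at h1
      have h2 : r ≠ 4 := by
        rintro rfl
        exact not_four okTQ.f F15 srchQ hr
      lia
    obtain ⟨b1, b2⟩ := buch_eq hP uP
    obtain ⟨b3, b4⟩ := buch_eq hQ uQ
    exact ⟨b1, b3, b2, b4⟩

end Pool.Agent.Results.MP_1dea36_gt.BettiBuchstaber
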